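import Mathlib

/-! The representation induced by a character. -/

set_option autoImplicit false
set_option linter.style.haveILetI false

open scoped ENNReal

namespace Pool.Agent.Helper29.VP

variable {G : Type} [Group G] (N : Subgroup G)

/-- representatives -/
noncomputable def rp (x : G ⧸ N) : G := Quotient.out x

theorem rp_mk (x : G ⧸ N) : ((rp N x : G) : G ⧸ N) = x := QuotientGroup.out_eq' x

/-- the cocycle -/
noncomputable def cc (g : G) (x : G ⧸ N) : N :=
  ⟨(rp N (g • x))⁻¹ * (g * rp N x), by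
    rw [← QuotientGroup.eq, rp_mk]
    show g • x = g • ((rp N x : G) : G ⧸ N)
    rw [rp_mk]⟩

theorem cc_mul (g h : G) (x : G ⧸ N) : cc N (g * h) x = cc N g (h • x) * cc N h x := by
  apply Subtype.ext
  show (rp N ((g * h) • x))⁻¹ * (g * h * rp N x) =
    (rp N (g • h • x))⁻¹ * (g * rp N (h • x)) * ((rp N (h • x))⁻¹ * (h * rp N x))
  rw [mul_smul]
  group

theorem cc_one (x : G ⧸ N) : cc N 1 x = 1 := by
  apply Subtype.ext
  show (rp N ((1 : G) • x))⁻¹ * (1 * rp N x) = 1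
  rw [one_smul, one_mul, inv_mul_cancel]

/-- the space -/
abbrev Kd : Type := lp (fun _ : G ⧸ N => ℂ) 2

variable {N} {ω : N → ℂ} (hω : ∀ x y, ω (x * y) = ω x * ω y) (hn : ∀ x, ‖ω x‖ = 1)

include hn in
theorem mem_aux (g : G) (f : Kd N) :
    Memℓp (fun x : G ⧸ N => ω (cc N g (g⁻¹ • x)) * f (g⁻¹ • x)) 2 := by
  refine memℓp_gen ?_
  have h1 : Summable fun x : G ⧸ N => ‖f x‖ ^ (2 : ℝ≥0∞).toReal :=
    (lp.memℓp f).summable (by norm_num)
  have h2 := ((MulAction.toPerm (g⁻¹ : G) : Equiv.Perm (G ⧸ N)).summable_iff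
    (f := fun x : G ⧸ N => ‖f x‖ ^ (2 : ℝ≥0∞).toReal)).2 h1
  refine h2.congr fun x => ?_
  rw [norm_mul, hn, one_mul]
  rfl

/-- the operators -/
noncomputable def vf (g : G) (f : Kd N) : Kd N :=
  ⟨fun x : G ⧸ N => ω (cc N g (g⁻¹ • x)) * f (g⁻¹ • x), mem_aux hn g f⟩

theorem vf_apply (g : G) (f : Kd N) (x : G ⧸ N) :
    vf hn g f x = ω (cc N g (g⁻¹ • x)) * f (g⁻¹ • x) := rfl

theorem vf_norm (g : G) (f : Kd N) : ‖vf hn g f‖ = ‖f‖ := by
  have h1 := lp.norm_rpow_eq_tsum (p := 2) (by norm_num) (vf hn g f)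
  have h2 := lp.norm_rpow_eq_tsum (p := 2) (by norm_num) f
  have h3 : ∑' x, ‖vf hn g f x‖ ^ (2 : ℝ≥0∞).toReal = ∑' x, ‖f x‖ ^ (2 : ℝ≥0∞).toReal := by
    rw [← (MulAction.toPerm (g⁻¹ : G) : Equiv.Perm (G ⧸ N)).tsum_eq
      (fun x : G ⧸ N => ‖f x‖ ^ (2 : ℝ≥0∞).toReal)]
    refine tsum_congr fun x => ?_
    rw [vf_apply, norm_mul, hn, one_mul]
    rfl
  rw [h3, ← h2] at h1
  have h4 : (2 : ℝ≥0∞).toReal ≠ 0 := by norm_num
  exact (Real.rpow_left_inj (norm_nonneg _) (norm_nonneg _) h4).1 h1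

/-- the operators as linear isometries -/
noncomputable def vl (g : G) : Kd N →ₗᵢ[ℂ] Kd N where
  toFun := vf hn g
  map_add' f f' := by
    ext x
    rw [vf_apply, lp.coeFn_add, lp.coeFn_add, Pi.add_apply, Pi.add_apply, vf_apply, vf_apply,
      mul_add]
  map_smul' c f := by
    ext x
    rw [vf_apply, lp.coeFn_smul, Pi.smul_apply, RingHom.id_apply, lp.coeFn_smul, Pi.smul_apply,
      vf_apply, smul_eq_mul, smul_eq_mul]
    ring
  norm_map' f := vf_norm hn g f

include hω hn in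
theorem om_one : ω 1 = 1 := by
  have h := hω 1 1
  rw [mul_one] at h
  have h0 : ω 1 ≠ 0 := by
    intro h0
    have := hn 1
    rw [h0, norm_zero] at this
    exact zero_ne_one this
  exact (mul_eq_left₀ h0).1 h.symm

include hω in
theorem vl_mul (g h : G) (f : Kd N) : vl hn (g * h) f = vl hn g (vl hn h f) := by
  ext x
  show vf hn (g * h) f x = vf hn g (vf hn h f) x
  have e : g⁻¹ • x = h • (h⁻¹ • (g⁻¹ • x)) := by rw [smul_inv_smul]
  rw [vf_apply, vf_apply, vf_apply, mul_inv_rev, mul_smul, cc_mul, hω, ← e]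
  ring

include hω in
theorem vl_one (f : Kd N) : vl hn (1 : G) f = f := by
  ext x
  show vf hn (1 : G) f x = f x
  rw [vf_apply, inv_one, one_smul, cc_one, om_one hω hn, one_mul]

/-- the induced representation -/
noncomputable def ind : G →* (Kd N ≃ₗᵢ[ℂ] Kd N) where
  toFun g :=
    { toLinearEquiv := LinearEquiv.ofLinearMap (vl hn g).toLinearMap (vl hn g⁻¹).toLinearMap
        (by
          ext1 f
          show vl hn g (vl hn g⁻¹ f) = f
          rw [← vl_mul hω, mul_inv_cancel, vl_one hω])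
        (by
          ext1 f
          show vl hn g⁻¹ (vl hn g f) = f
          rw [← vl_mul hω, inv_mul_cancel, vl_one hω])
      norm_map' := fun f => vf_norm hn g f }
  map_one' := by
    ext1 f
    exact vl_one hω hn f
  map_mul' g h := by
    ext1 f
    exact vl_mul hω hn g h f

open Classical in
/-- the vector of the character -/
noncomputable def dv (N : Subgroup G) : Kd N := lp.single 2 ((1 : G) : G ⧸ N) (1 : ℂ)

open Classical in
theorem dv_norm : ‖dv N‖ = 1 := by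
  rw [dv, lp.norm_single (by norm_num), norm_one]

open Classical in
theorem ind_dv (n : N) : ind hω hn (n : G) (dv N) = ω n • dv N := by
  have hn1 : (n : G) • ((1 : G) : G ⧸ N) = ((1 : G) : G ⧸ N) := by
    show (((n : G) * 1 : G) : G ⧸ N) = ((1 : G) : G ⧸ N)
    rw [mul_one, QuotientGroup.eq, mul_one]
    exact inv_mem n.2
  have hn2 : (n : G)⁻¹ • ((1 : G) : G ⧸ N) = ((1 : G) : G ⧸ N) := by
    rw [inv_smul_eq_iff, hn1]
  have hr : rp N ((1 : G) : G ⧸ N) ∈ N := by
    have h1 := rp_mk N ((1 : G) : G ⧸ N)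
    rw [QuotientGroup.eq, mul_one] at h1
    exact inv_mem_iff.1 h1
  have hcc : ω (cc N (n : G) ((1 : G) : G ⧸ N)) = ω n := by
    have h1 : cc N (n : G) ((1 : G) : G ⧸ N) = (⟨_, hr⟩ : N)⁻¹ * (n * ⟨_, hr⟩) := by
      apply Subtype.ext
      show (rp N ((n : G) • ((1 : G) : G ⧸ N)))⁻¹ * ((n : G) * rp N ((1 : G) : G ⧸ N)) = _
      rw [hn1]
      rfl
    rw [h1, hω, hω, mul_comm (ω n), ← mul_assoc, ← hω, inv_mul_cancel, om_one hω hn, one_mul]
  ext x
  show vf hn (n : G) (dv N) x = _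
  rw [vf_apply, lp.coeFn_smul, Pi.smul_apply, smul_eq_mul]
  by_cases hx : x = ((1 : G) : G ⧸ N)
  · rw [hx, hn2, hcc]
  · have h1 : (n : G)⁻¹ • x ≠ ((1 : G) : G ⧸ N) := by
      intro h
      rw [inv_smul_eq_iff, hn1] at h
      exact hx h
    rw [dv, lp.single_apply_ne _ _ _ hx, lp.single_apply_ne _ _ _ h1, mul_zero, mul_zero]

end Pool.Agent.Helper29.VP
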