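import Pool.Agent.Helper29.VP.Phase
import Pool.Agent.Helper29.VP.Tr
import Pool.Agent.Helper29.VP.Ind
import Pool.Agent.Helper29.NU.VPC

/-! Expanding eigenvectors give positive entropy. -/

set_option autoImplicit false
set_option linter.style.haveILetI false

open Filter Topology

namespace Pool.Agent.Helper29.VP

variable {A G : Type} [CStarAlgebra A] [Group G]

/-- subexponential rank of the approximations by contractions -/
def ZeroRank (α : A →⋆ₐ[ℂ] A) : Prop :=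
  ∃ (H : Type) (_ : NormedAddCommGroup H) (_ : InnerProductSpace ℂ H) (_ : CompleteSpace H)
    (π : A →⋆ₐ[ℂ] (H →L[ℂ] H)), Function.Injective π ∧
    ∀ (Ω : Finset A) (δ ε : ℝ), 0 < δ → 0 < ε → ∀ᶠ n : ℕ in atTop,
      ∃ k : ℕ, (k : ℝ) ≤ Real.exp (ε * n) ∧
        ∃ (φ : A →ₗ[ℂ] Mk k) (ψ : Mk k →ₗ[ℂ] (H →L[ℂ] H)), (∀ x, ‖φ x‖ ≤ ‖x‖) ∧
          (∀ y, ‖ψ y‖ ≤ ‖y‖) ∧
          ∀ i < n, ∀ a ∈ Ω, ‖ψ (φ ((α^[i]) a)) - π ((α^[i]) a)‖ < δ

theorem norm_un_le {x : A} (hx : x ∈ unitary A) : ‖x‖ ≤ 1 := by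
  rcases subsingleton_or_nontrivial A with h | h
  · rw [Subsingleton.elim x 0, norm_zero]
    exact zero_le_one
  · exact (CStarRing.norm_of_mem_unitary hx).le

/-- the iterates on the group elements -/
theorem iter_u {u : G → A} {σ : G → G} {θ : G → ℂ} {α : A →⋆ₐ[ℂ] A} (hθ : ∀ g, ‖θ g‖ = 1)
    (hα : ∀ g, α (u g) = θ g • u (σ g)) (g : G) (i : ℕ) :
    ∃ c : ℂ, ‖c‖ = 1 ∧ (α^[i]) (u g) = c • u ((σ^[i]) g) := by
  induction i with
  | zero => exact ⟨1, norm_one, by rw [one_smul]; rfl⟩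
  | succ i ih =>
    obtain ⟨c, hc, h⟩ := ih
    refine ⟨c * θ ((σ^[i]) g), by rw [norm_mul, hc, hθ, one_mul], ?_⟩
    rw [Function.iterate_succ_apply', h, map_smul, hα, smul_smul, Function.iterate_succ_apply']

theorem ph_ne (z : ℂ) : ph z ≠ 0 := by
  intro h
  have := ph_norm z
  rw [h, norm_zero] at this
  exact zero_ne_one this

/-- the lower bound for sums of the group elements -/
theorem norm_low {u : G → A}
    (hun : ∀ (K : Type) [NormedAddCommGroup K] [InnerProductSpace ℂ K] [CompleteSpace K]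
      (v : G →* (K ≃ₗᵢ[ℂ] K)), ∃ ρ : A →⋆ₐ[ℂ] (K →L[ℂ] K), ∀ g ξ, ρ (u g) ξ = v g ξ)
    {N : Subgroup G} (χ : N →* Multiplicative ℂ) {κ c : ℂ} (hc : c ≠ 0) (hκ : 16 ≤ ‖κ‖)
    (g : ℕ → N) (hg : ∀ j, (χ (g j)).toAdd = κ ^ j * c) (w : ℕ → ℂ) (hw : ∀ j, ‖w j‖ = 1)
    (m : ℕ) : 3 / 4 * (m : ℝ) ≤ ‖∑ j : Fin m, w j • u (g j : G)‖ := by
  obtain ⟨s, hs⟩ := align' hc hκ (fun j => (w j)⁻¹) (fun j => by rw [norm_inv, hw, inv_one]) m
  set ω : N → ℂ := fun n => ph (s * (χ n).toAdd) with hω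
  have hωm : ∀ x y, ω (x * y) = ω x * ω y := by
    intro x y
    show ph (s * (χ (x * y)).toAdd) = ph (s * (χ x).toAdd) * ph (s * (χ y).toAdd)
    rw [map_mul, toAdd_mul, mul_add, ph_add]
  have hωn : ∀ x, ‖ω x‖ = 1 := fun x => ph_norm _
  obtain ⟨ρ, hρ⟩ := hun (Kd N) (ind hωm hωn)
  set Y : A := ∑ j : Fin m, w j • u (g j : G) with hY
  set Z : ℂ := ∑ j : Fin m, w j * ω (g j) with hZ
  have h1 : ρ Y (dv N) = Z • dv N := by
    rw [hY, map_sum, hZ, Finset.sum_smul]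
    rw [_root_.sum_apply]
    refine Finset.sum_congr rfl fun j _ => ?_
    rw [map_smul]
    show w j • (ρ (u (g j : G)) (dv N)) = _
    rw [hρ, ind_dv, smul_smul]
  have h2 : ‖Z - m‖ ≤ 1 / 4 * (m : ℝ) := by
    have e : Z - m = ∑ j : Fin m, (w j * ω (g j) - 1) := by
      rw [Finset.sum_sub_distrib, Finset.sum_const, Finset.card_univ, Fintype.card_fin,
        nsmul_eq_mul, mul_one]
    rw [e]
    refine (norm_sum_le _ _).trans ?_
    calc ∑ j : Fin m, ‖w j * ω (g j) - 1‖ ≤ ∑ _j : Fin m, (1 / 4 : ℝ) := by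
          refine Finset.sum_le_sum fun j _ => ?_
          have h3 : w j * ω (g j) - 1 = w j * (ph (s * (κ ^ (j : ℕ) * c)) - (w j)⁻¹) := by
            have h4 : w j ≠ 0 := by
              intro h4
              have := hw j
              rw [h4, norm_zero] at this
              exact zero_ne_one this
            rw [mul_sub, mul_inv_cancel₀ h4]
            show w j * ph (s * (χ (g j)).toAdd) - 1 = _
            rw [hg]
          rw [h3, norm_mul, hw, one_mul]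
          exact hs j j.2
      _ = 1 / 4 * (m : ℝ) := by
          rw [Finset.sum_const, Finset.card_univ, Fintype.card_fin, nsmul_eq_mul]
          ring
  have h3 : 3 / 4 * (m : ℝ) ≤ ‖Z‖ := by
    have h4 : ‖(m : ℂ)‖ ≤ ‖Z‖ + ‖Z - m‖ := by
      have e : (m : ℂ) = Z - (Z - m) := by ring
      conv_lhs => rw [e]
      exact norm_sub_le _ _
    rw [Complex.norm_natCast] at h4
    linarith
  refine h3.trans ?_
  calc ‖Z‖ = ‖ρ Y (dv N)‖ := by rw [h1, norm_smul, dv_norm, mul_one]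
    _ ≤ ‖ρ Y‖ * ‖dv N‖ := (ρ Y).le_opNorm _
    _ ≤ ‖Y‖ := by
        rw [dv_norm, mul_one]
        exact NonUnitalStarAlgHom.norm_apply_le ρ Y

/-- **Zero entropy excludes expanding eigenvectors.** -/
theorem no_expand {u : G → A} (hu : ∀ g, u g ∈ unitary A)
    (hun : ∀ (K : Type) [NormedAddCommGroup K] [InnerProductSpace ℂ K] [CompleteSpace K]
      (v : G →* (K ≃ₗᵢ[ℂ] K)), ∃ ρ : A →⋆ₐ[ℂ] (K →L[ℂ] K), ∀ g ξ, ρ (u g) ξ = v g ξ)
    {σ : MulAut G} {θ : G → ℂ} {α : A →⋆ₐ[ℂ] A} (hθ : ∀ g, ‖θ g‖ = 1)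
    (hα : ∀ g, α (u g) = θ g • u (σ g)) (hz : ZeroRank α) : NU.SpecC σ := by
  intro N hN hσN χ l hχ hχl
  by_contra hl
  rw [not_le] at hl
  obtain ⟨g₀, hg₀⟩ : ∃ g₀ : N, χ g₀ ≠ 1 := by
    by_contra h
    push Not at h
    exact hχ (MonoidHom.ext h)
  have hc : (χ g₀).toAdd ≠ 0 := by
    intro h
    exact hg₀ h
  set c := (χ g₀).toAdd with hcdef
  obtain ⟨q, hq⟩ := pow_unbounded_of_one_lt (16 : ℝ) hl
  have hq0 : 0 < q := by
    rcases Nat.eq_zero_or_pos q with h | h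
    · rw [h, pow_zero] at hq
      norm_num at hq
    · exact h
  have hκ : 16 ≤ ‖l ^ q‖ := by rw [norm_pow]; exact hq.le
  -- the orbit
  have hmem : ∀ i : ℕ, (σ^[i]) (g₀ : G) ∈ N := by
    intro i
    induction i with
    | zero => exact g₀.2
    | succ i ih => rw [Function.iterate_succ_apply']; exact (hσN _).1 ih
  have hval : ∀ i : ℕ, (χ ⟨(σ^[i]) (g₀ : G), hmem i⟩).toAdd = l ^ i * c := by
    intro i
    induction i with
    | zero =>
      rw [pow_zero, one_mul]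
      rfl
    | succ i ih =>
      rw [hχl ⟨(σ^[i]) (g₀ : G), hmem i⟩ ⟨(σ^[i + 1]) (g₀ : G), hmem (i + 1)⟩
        (Function.iterate_succ_apply' _ _ _), ih, pow_succ]
      ring
  choose cf hcf hcα using fun i => iter_u (u := u) (σ := σ) hθ hα (g₀ : G) i
  obtain ⟨H, _, _, _, π, hπ, hrank⟩ := hz
  obtain ⟨n₀, hn₀⟩ := eventually_atTop.1 (hrank {u g₀} (1 / 4) (Real.log 2 / (128 * q))
    (by norm_num) (by positivity))
  set p : ℕ := 2 ^ (n₀ + 1) with hp
  have hp2 : 2 ≤ p := by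
    rw [hp, pow_succ]
    have := Nat.one_le_two_pow (n := n₀)
    omega
  have hpn : n₀ ≤ p := by
    rw [hp]
    exact (Nat.lt_two_pow_self).le.trans (Nat.pow_le_pow_right (by norm_num) (Nat.le_succ _))
  set m : ℕ := 128 * p with hm
  obtain ⟨k, hk, φ, ψ, hφ, hψ, happ⟩ := hn₀ (q * m) (by
    calc n₀ ≤ p := hpn
      _ ≤ 128 * p := by omega
      _ = 1 * m := by rw [one_mul]
      _ ≤ q * m := Nat.mul_le_mul_right _ hq0)
  have hx : ∀ j : Fin m, ∀ a ∈ ({u g₀} : Finset A), ‖ψ (φ ((α^[q * j]) a)) -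
      π ((α^[q * j]) a)‖ < 1 / 4 := by
    intro j
    refine happ (q * j) ?_
    exact Nat.mul_lt_mul_of_pos_left j.2 hq0
  set x : ℕ → A := fun j => (α^[q * j]) (u g₀) with hxdef
  have hxn : ∀ j, ‖x j‖ ≤ 1 := by
    intro j
    show ‖(α^[q * j]) (u g₀)‖ ≤ 1
    rw [hcα, norm_smul, hcf, one_mul]
    exact norm_un_le (hu _)
  have h4p : (4 : ℝ) ^ p ≤ 2 * k := by
    refine dim_large (r := n₀) hp hm (a := fun j : Fin m => φ (x j))
      (fun j => (hφ _).trans (hxn j)) fun ε => ?_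
    set Y : A := ∑ j : Fin m, (sg (ε j) : ℂ) • x j with hY
    have e1 : XX (fun j : Fin m => φ (x j)) ε = φ Y := by
      rw [XX, hY, map_sum]
      exact Finset.sum_congr rfl fun j _ => (map_smul _ _ _).symm
    -- the lower bound for `Y`
    have h1 : 3 / 4 * (m : ℝ) ≤ ‖Y‖ := by
      set w : ℕ → ℂ := fun j => (if h : j < m then (sg (ε ⟨j, h⟩) : ℂ) else 1) * cf (q * j)
        with hwdef
      have hw : ∀ j, ‖w j‖ = 1 := by
        intro j
        show ‖(if h : j < m then (sg (ε ⟨j, h⟩) : ℂ) else 1) * cf (q * j)‖ = 1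
        rw [norm_mul, hcf, mul_one]
        split_ifs with h
        · rw [Complex.norm_real, Real.norm_eq_abs, sg_abs]
        · exact norm_one
      have h2 := norm_low hun χ hc hκ (fun j => ⟨(σ^[q * j]) (g₀ : G), hmem (q * j)⟩)
        (fun j => by rw [hval, pow_mul]) w hw m
      refine h2.trans (le_of_eq ?_)
      congr 1
      rw [hY]
      refine Finset.sum_congr rfl fun j _ => ?_
      show ((if h : (j : ℕ) < m then (sg (ε ⟨j, h⟩) : ℂ) else 1) * cf (q * j)) •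
        u ((σ^[q * j]) (g₀ : G)) = (sg (ε j) : ℂ) • (α^[q * j]) (u g₀)
      rw [dif_pos j.2, hcα, smul_smul]
    have h2 : ‖ψ (φ Y) - π Y‖ ≤ 1 / 4 * (m : ℝ) := by
      have e2 : ψ (φ Y) - π Y = ∑ j : Fin m, (sg (ε j) : ℂ) • (ψ (φ (x j)) - π (x j)) := by
        rw [hY, map_sum, map_sum, map_sum, ← Finset.sum_sub_distrib]
        refine Finset.sum_congr rfl fun j _ => ?_
        rw [map_smul, map_smul, map_smul, smul_sub]
      rw [e2]
      refine (norm_sum_le _ _).trans ?_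
      calc ∑ j : Fin m, ‖(sg (ε j) : ℂ) • (ψ (φ (x j)) - π (x j))‖ ≤ ∑ _j : Fin m, (1 / 4 : ℝ) := by
            refine Finset.sum_le_sum fun j _ => ?_
            rw [norm_smul, Complex.norm_real, Real.norm_eq_abs, sg_abs, one_mul]
            exact (hx j _ (Finset.mem_singleton_self _)).le
        _ = 1 / 4 * (m : ℝ) := by
            rw [Finset.sum_const, Finset.card_univ, Fintype.card_fin, nsmul_eq_mul]
            ring
    have h3 : ‖π Y‖ = ‖Y‖ := NonUnitalStarAlgHom.norm_map π hπ Y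
    have h4 : ‖π Y‖ ≤ ‖ψ (φ Y)‖ + ‖ψ (φ Y) - π Y‖ := by
      have e : π Y = ψ (φ Y) - (ψ (φ Y) - π Y) := by abel
      conv_lhs => rw [e]
      exact norm_sub_le _ _
    rw [e1]
    have h5 := hψ (φ Y)
    linarith
  -- the contradiction
  have hq' : (0 : ℝ) < q := by exact_mod_cast hq0
  have hk2 : (k : ℝ) ≤ 2 ^ p := by
    refine hk.trans (le_of_eq ?_)
    have e : Real.log 2 / (128 * q) * ((q * m : ℕ) : ℝ) = Real.log 2 * p := by
      rw [hm]
      push_cast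
      field_simp
    rw [e, mul_comm, Real.exp_nat_mul, Real.exp_log (by norm_num)]
  have h1 : (4 : ℝ) ^ p ≤ 2 ^ (p + 1) := by
    rw [pow_succ]
    linarith
  have h2 : (2 : ℝ) ^ (2 * p) ≤ 2 ^ (p + 1) := by
    rw [pow_mul]
    norm_num
    exact h1
  have h3 := (pow_le_pow_iff_right₀ (by norm_num : (1 : ℝ) < 2)).1 h2
  omega

end Pool.Agent.Helper29.VP
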