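import Mathlib

/-! Alignment of the phases of a lacunary sequence. -/

set_option autoImplicit false
set_option linter.style.haveILetI false

namespace Pool.Agent.Helper29.VP

/-- the phase `exp (i Re z)` -/
noncomputable def ph (z : ℂ) : ℂ := Complex.exp (Complex.I * (z.re : ℂ))

theorem ph_norm (z : ℂ) : ‖ph z‖ = 1 := by
  rw [ph, mul_comm]
  exact Complex.norm_exp_ofReal_mul_I _

theorem ph_add (z w : ℂ) : ph (z + w) = ph z * ph w := by
  rw [ph, ph, ph, ← Complex.exp_add, Complex.add_re]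
  congr 1
  push_cast
  ring

theorem ph_zero : ph 0 = 1 := by
  rw [ph, Complex.zero_re, Complex.ofReal_zero, mul_zero, Complex.exp_zero]

theorem ph_sub_one (z : ℂ) : ‖ph z - 1‖ ≤ ‖z‖ := by
  refine (Real.norm_exp_I_mul_ofReal_sub_one_le).trans ?_
  exact Complex.abs_re_le_norm z

theorem exists_real (w : ℂ) (hw : ‖w‖ = 1) : ∃ t : ℝ, |t| ≤ Real.pi ∧ ph (t : ℂ) = w := by
  refine ⟨w.arg, Complex.abs_arg_le_pi w, ?_⟩
  rw [ph, Complex.ofReal_re, mul_comm]
  have h := Complex.norm_mul_exp_arg_mul_I w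
  rw [hw, Complex.ofReal_one, one_mul] at h
  exact h

/-- **Phase alignment.** -/
theorem align {κ c : ℂ} (hc : c ≠ 0) {K : ℝ} (hK : 1 < K) (hκ : K ≤ ‖κ‖) (e : ℕ → ℂ)
    (he : ∀ j, ‖e j‖ = 1) (m : ℕ) :
    ∃ s : ℂ, ∀ j < m, ‖ph (s * (κ ^ j * c)) - e j‖ ≤
      Real.pi / (K - 1) * (1 - K⁻¹ ^ (m - 1 - j)) := by
  have hK0 : 0 < K := by linarith
  have hκ0 : κ ≠ 0 := by
    intro h
    rw [h, norm_zero] at hκ
    linarith
  induction m with
  | zero => exact ⟨0, fun j hj => absurd hj (Nat.not_lt_zero j)⟩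
  | succ m ih =>
    obtain ⟨s, hs⟩ := ih
    set w : ℂ := e m * (ph (s * (κ ^ m * c)))⁻¹ with hw
    have hwn : ‖w‖ = 1 := by rw [hw, norm_mul, norm_inv, he, ph_norm, inv_one, one_mul]
    obtain ⟨t, ht, htw⟩ := exists_real w hwn
    refine ⟨s + t * ((κ ^ m)⁻¹ * c⁻¹), fun j hj => ?_⟩
    rcases Nat.lt_succ_iff_lt_or_eq.1 hj with hj | rfl
    · have e1 : (s + t * ((κ ^ m)⁻¹ * c⁻¹)) * (κ ^ j * c) =
          s * (κ ^ j * c) + t * (κ ^ (m - j))⁻¹ := by
        have h1 : κ ^ m = κ ^ j * κ ^ (m - j) := by rw [← pow_add]; congr 1; omega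
        rw [h1]
        field_simp
      rw [e1, ph_add]
      have e2 : ph (s * (κ ^ j * c)) * ph (t * (κ ^ (m - j))⁻¹) - e j =
          (ph (s * (κ ^ j * c)) - e j) + ph (s * (κ ^ j * c)) * (ph (t * (κ ^ (m - j))⁻¹) - 1) := by
        ring
      have h2 : ‖(t : ℂ) * (κ ^ (m - j))⁻¹‖ ≤ Real.pi * K⁻¹ ^ (m - j) := by
        rw [norm_mul, norm_inv, norm_pow, Complex.norm_real, Real.norm_eq_abs, inv_pow]
        refine mul_le_mul ht ?_ (by positivity) Real.pi_pos.le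
        exact inv_anti₀ (by positivity) (pow_le_pow_left₀ hK0.le hκ _)
      rw [e2]
      refine (norm_add_le _ _).trans ?_
      rw [norm_mul, ph_norm, one_mul]
      refine (add_le_add (hs j hj) ((ph_sub_one _).trans h2)).trans (le_of_eq ?_)
      have h3 : m - j = (m - 1 - j) + 1 := by omega
      have h4 : m + 1 - 1 - j = (m - 1 - j) + 1 := by omega
      rw [h3, h4, pow_succ]
      have h5 : K - 1 ≠ 0 := by linarith
      field_simp
      ring
    · have e1 : (s + t * ((κ ^ j)⁻¹ * c⁻¹)) * (κ ^ j * c) = s * (κ ^ j * c) + t := by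
        have h1 : κ ^ j ≠ 0 := pow_ne_zero _ hκ0
        field_simp
      have h0 : ph (s * (κ ^ j * c)) ≠ 0 := by
        intro h
        have := ph_norm (s * (κ ^ j * c))
        rw [h, norm_zero] at this
        exact zero_ne_one this
      rw [e1, ph_add, htw, hw, mul_comm (e j), ← mul_assoc, mul_inv_cancel₀ h0, one_mul, sub_self,
        norm_zero]
      have h1 : j + 1 - 1 - j = 0 := by omega
      rw [h1, pow_zero, sub_self, mul_zero]

/-- the version with a constant bound -/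
theorem align' {κ c : ℂ} (hc : c ≠ 0) (hκ : 16 ≤ ‖κ‖) (e : ℕ → ℂ)
    (he : ∀ j, ‖e j‖ = 1) (m : ℕ) :
    ∃ s : ℂ, ∀ j < m, ‖ph (s * (κ ^ j * c)) - e j‖ ≤ 1 / 4 := by
  obtain ⟨s, hs⟩ := align hc (by norm_num) hκ e he m
  refine ⟨s, fun j hj => (hs j hj).trans ?_⟩
  have h1 : Real.pi < 3.15 := Real.pi_lt_d2
  have h2 : (0 : ℝ) ≤ (16 : ℝ)⁻¹ ^ (m - 1 - j) := by positivity
  have h3 := Real.pi_pos
  calc Real.pi / (16 - 1) * (1 - (16 : ℝ)⁻¹ ^ (m - 1 - j)) ≤ Real.pi / (16 - 1) * 1 := by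
        refine mul_le_mul_of_nonneg_left (by linarith) (by positivity)
    _ ≤ 1 / 4 := by
        rw [mul_one, div_le_iff₀ (by norm_num)]
        norm_num at h1 ⊢
        linarith

end Pool.Agent.Helper29.VP
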