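import Mathlib

/-! Sums over signs. -/

set_option autoImplicit false
set_option linter.style.haveILetI false

open Finset

namespace Pool.Agent.Helper29.VP

/-- the sign -/
def sg (b : Bool) : ℝ := if b then 1 else -1

theorem sg_true : sg true = 1 := rfl
theorem sg_false : sg false = -1 := rfl

theorem sg_abs (b : Bool) : |sg b| = 1 := by
  cases b
  · rw [sg_false, abs_neg, abs_one]
  · rw [sg_true, abs_one]

variable {m : ℕ}

/-- the sum of the signs -/
def Sg (ε : Fin m → Bool) : ℝ := ∑ j, sg (ε j)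

theorem sum_prod (f : Fin m → Bool → ℝ) :
    ∑ ε : Fin m → Bool, ∏ j, f j (ε j) = ∏ j, (f j true + f j false) := by
  rw [← Fintype.prod_sum]
  refine Finset.prod_congr rfl fun j _ => ?_
  rw [Fintype.sum_bool]

/-- the monomials in the signs -/
def mono (n : Fin m → ℕ) (ε : Fin m → Bool) : ℝ := ∏ j, sg (ε j) ^ n j

theorem mono_mul (n n' : Fin m → ℕ) (ε : Fin m → Bool) :
    mono n ε * mono n' ε = mono (n + n') ε := by
  rw [mono, mono, mono, ← Finset.prod_mul_distrib]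
  refine Finset.prod_congr rfl fun j _ => ?_
  rw [Pi.add_apply, pow_add]

theorem mono_zero (ε : Fin m → Bool) : mono 0 ε = 1 := by
  rw [mono]
  exact Finset.prod_eq_one fun j _ => by rw [Pi.zero_apply, pow_zero]

theorem mono_single (i : Fin m) (ε : Fin m → Bool) : mono (Pi.single i 1) ε = sg (ε i) := by
  rw [mono, Finset.prod_eq_single i]
  · rw [Pi.single_eq_same, pow_one]
  · intro j _ hj
    rw [Pi.single_eq_of_ne hj, pow_zero]
  · intro h
    exact absurd (Finset.mem_univ i) h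

theorem sum_mono_nonneg (n : Fin m → ℕ) : 0 ≤ ∑ ε : Fin m → Bool, mono n ε := by
  unfold mono
  rw [sum_prod (fun j b => sg b ^ n j)]
  refine Finset.prod_nonneg fun j _ => ?_
  rw [sg_true, sg_false, one_pow]
  rcases Nat.even_or_odd (n j) with h | h
  · rw [h.neg_one_pow]; norm_num
  · rw [h.neg_one_pow]; norm_num

/-- the exponential moments -/
theorem sum_exp (t : ℝ) : ∑ ε : Fin m → Bool, Real.exp (t * Sg ε) = (2 * Real.cosh t) ^ m := by
  have h1 : ∀ ε : Fin m → Bool, Real.exp (t * Sg ε) = ∏ j, Real.exp (t * sg (ε j)) := by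
    intro ε
    rw [Sg, Finset.mul_sum, Real.exp_sum]
  rw [Finset.sum_congr rfl fun ε _ => h1 ε, sum_prod (fun j b => Real.exp (t * sg b))]
  rw [Finset.prod_const, Finset.card_univ, Fintype.card_fin, sg_true, sg_false, Real.cosh_eq]
  congr 1
  rw [mul_one, mul_neg, mul_one]
  ring

/-- the moments of the sums of signs -/
theorem sum_moment (p : ℕ) (hm : m = 128 * p) :
    ∑ ε : Fin m → Bool, (Sg ε ^ 2) ^ p ≤ 2 * 2 ^ m * (256 * 4 * (p : ℝ) ^ 2) ^ p := by
  have h0 : ∀ ε : Fin m → Bool, (Sg ε ^ 2) ^ p ≤ (16 * (p : ℝ)) ^ (2 * p) *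
      (Real.exp (1 / 8 * Sg ε) + Real.exp (-(1 / 8) * Sg ε)) := by
    intro ε
    have h1 := Real.pow_div_factorial_le_exp (x := |Sg ε| / 8) (by positivity) (2 * p)
    have h2 : Real.exp (|Sg ε| / 8) ≤
        Real.exp (1 / 8 * Sg ε) + Real.exp (-(1 / 8) * Sg ε) := by
      rcases abs_cases (Sg ε) with ⟨h, -⟩ | ⟨h, -⟩
      · rw [h]
        have := Real.exp_pos (-(1 / 8) * Sg ε)
        have e : Sg ε / 8 = 1 / 8 * Sg ε := by ring
        rw [e]
        linarith
      · rw [h]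
        have := Real.exp_pos (1 / 8 * Sg ε)
        have e : -Sg ε / 8 = -(1 / 8) * Sg ε := by ring
        rw [e]
        linarith
    have h3 : ((2 * p).factorial : ℝ) ≤ (2 * (p : ℝ)) ^ (2 * p) := by
      have := Nat.factorial_le_pow (2 * p)
      calc ((2 * p).factorial : ℝ) ≤ (((2 * p) ^ (2 * p) : ℕ) : ℝ) := by exact_mod_cast this
        _ = (2 * (p : ℝ)) ^ (2 * p) := by push_cast; ring
    have h4 : (0 : ℝ) < ((2 * p).factorial : ℝ) := by positivity
    have h5 : (|Sg ε| / 8) ^ (2 * p) ≤ (2 * (p : ℝ)) ^ (2 * p) *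
        (Real.exp (1 / 8 * Sg ε) + Real.exp (-(1 / 8) * Sg ε)) := by
      rw [div_le_iff₀ h4] at h1
      refine h1.trans ?_
      rw [mul_comm]
      exact mul_le_mul h3 h2 (Real.exp_pos _).le (by positivity)
    calc (Sg ε ^ 2) ^ p = 8 ^ (2 * p) * (|Sg ε| / 8) ^ (2 * p) := by
          rw [← mul_pow, mul_div_cancel₀ _ (by norm_num : (8 : ℝ) ≠ 0), pow_mul, sq_abs]
      _ ≤ 8 ^ (2 * p) * ((2 * (p : ℝ)) ^ (2 * p) *
          (Real.exp (1 / 8 * Sg ε) + Real.exp (-(1 / 8) * Sg ε))) :=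
          mul_le_mul_of_nonneg_left h5 (by positivity)
      _ = _ := by
          rw [← mul_assoc, ← mul_pow]
          congr 2
          ring
  refine (Finset.sum_le_sum fun ε _ => h0 ε).trans ?_
  rw [← Finset.mul_sum, Finset.sum_add_distrib, sum_exp, sum_exp, Real.cosh_neg]
  have h1 : (2 * Real.cosh (1 / 8)) ^ m ≤ 2 ^ m * 4 ^ p := by
    rw [mul_pow]
    refine mul_le_mul_of_nonneg_left ?_ (by positivity)
    have h2 : Real.cosh (1 / 8) ≤ Real.exp ((1 / 8) ^ 2 / 2) := Real.cosh_le_exp_half_sq _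
    calc Real.cosh (1 / 8) ^ m ≤ Real.exp ((1 / 8) ^ 2 / 2) ^ m :=
          pow_le_pow_left₀ (Real.cosh_pos _).le h2 _
      _ = Real.exp 1 ^ p := by
          rw [hm, pow_mul, ← Real.exp_nat_mul]
          congr 2
          norm_num
      _ ≤ 4 ^ p := pow_le_pow_left₀ (Real.exp_pos _).le
          (by have := Real.exp_one_lt_d9; linarith) _
  have h3 : (0 : ℝ) ≤ (16 * (p : ℝ)) ^ (2 * p) := by positivity
  calc (16 * (p : ℝ)) ^ (2 * p) * ((2 * Real.cosh (1 / 8)) ^ m + (2 * Real.cosh (1 / 8)) ^ m) ≤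
      (16 * (p : ℝ)) ^ (2 * p) * (2 ^ m * 4 ^ p + 2 ^ m * 4 ^ p) :=
        mul_le_mul_of_nonneg_left (add_le_add h1 h1) h3
    _ = 2 * 2 ^ m * (256 * 4 * (p : ℝ) ^ 2) ^ p := by
        rw [pow_mul, mul_pow (256 * 4 : ℝ), mul_pow (256 : ℝ), mul_pow (16 : ℝ), mul_pow]
        norm_num
        ring

end Pool.Agent.Helper29.VP
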